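import Pool.Agent.J6H70.UnitAdd.Main

/-!
# Integer solutions of unit and addition equations bounded by `2 ^ (n - 1)`

For every `n ≥ 1` and every integer tuple `x` there is an integer tuple `y` with all entries of
absolute value at most `2 ^ (n - 1)` that satisfies every equation `z_i = 1` and `z_i + z_j = z_k`
satisfied by `x`.
-/

set_option autoImplicit false

theorem Pool.Agent.Results.MP_80f852_al.UnitAddBound.result :
    ∀ n : ℕ, 1 ≤ n → ∀ x : Fin n → ℤ, ∃ y : Fin n → ℤ,
      (∀ i, |y i| ≤ 2 ^ (n - 1)) ∧
      (∀ i, x i = 1 → y i = 1) ∧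
      (∀ i j k, x k = x i + x j → y k = y i + y j) :=
  fun n _ x => Pool.Agent.J6H70.UnitAdd.main n x
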